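import Pool.Agent.helper59.FI.SpecB

/-!
# Project fi (MP_baa4d7_al), block A2, row FWD
-/

set_option autoImplicit false

namespace Pool.Agent.FI

open Pool.Agent.helper58.DC Pool.Agent.DI Pool.Agent.GR Pool.Agent.OB

/-- the class function of `t w t⁻¹`, `t` in the normaliser of `R` -/
theorem FWD_cls {G : Type} [Group G] {R : Subgroup G} {t : G} (ht : t ∈ nz R) (w : G) :
    cls (cz R) (t * w * t⁻¹) = fun x => cls (cz R) w (t⁻¹ * x * t⁻¹⁻¹) := by
  funext x
  by_cases h : ∃ l ∈ cz R, l * w * l⁻¹ = t⁻¹ * x * t⁻¹⁻¹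
  · rw [cls_one h]
    obtain ⟨l, hl, e⟩ := h
    refine cls_one ⟨t * l * t⁻¹, cz_conj ht hl, ?_⟩
    have h1 : t * l * t⁻¹ * (t * w * t⁻¹) * (t * l * t⁻¹)⁻¹ = t * (l * w * l⁻¹) * t⁻¹ := by group
    rw [h1, e]
    group
  · rw [cls_zero h]
    refine cls_zero fun h' => h ?_
    obtain ⟨l, hl, e⟩ := h'
    refine ⟨t⁻¹ * l * t⁻¹⁻¹, cz_conj ((nz R).inv_mem ht) hl, ?_⟩
    rw [← e]
    group

theorem FWD_sum {G : Type} [Group G] [Fintype G] (T : Subgroup G) (f : G → ℂ) [DecidablePred (· ∈ T)] :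
    ∑ᶠ t ∈ (T : Set G), f t = ∑ t : G, if t ∈ T then f t else 0 := by
  rw [finsum_mem_def, finsum_eq_sum_of_fintype]
  refine Finset.sum_congr rfl fun t _ => ?_
  by_cases h : t ∈ T
  · rw [if_pos h, Set.indicator_of_mem (show t ∈ (T : Set G) from h)]
  · rw [if_neg h, Set.indicator_of_notMem (show t ∉ (T : Set G) from h)]

theorem FWD (hORD : ORD_stmt) : FWD_stmt := by
  classical
  intro p M hS G _ _ R T hR θ hθ hCT hT w hw
  have := Fintype.ofFinite G
  let C : Subgroup G := cz R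
  let F : G → ℂ := fun t => cc θ (cls C (t * w * t⁻¹))
  have hF1 : F 1 = cc θ (cls C w) := by
    change cc θ (cls C (1 * w * 1⁻¹)) = _
    rw [one_mul, inv_one, mul_one]
  have hRC : R ≤ Cz C w := by
    intro r hr
    refine mem_Cz.2 ⟨le_cz_of_com hR hr, ?_⟩
    exact ((Subgroup.mem_centralizer_iff.1 hw) r hr).symm
  have hdvd : Nat.card R ∣ Nat.card (Cz C w) := Subgroup.card_dvd_of_le hRC
  have hR0 : (Nat.card R : ℂ) ≠ 0 := Nat.cast_ne_zero.2 Nat.card_pos.ne'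
  have hC0 : (Nat.card C : ℂ) ≠ 0 := Nat.cast_ne_zero.2 Nat.card_pos.ne'
  have hTn : ∀ t ∈ T, t ∈ nz R := fun t ht => (hT ht).1
  have hm : ∀ t ∈ T, Nat.card (Cz C (t * w * t⁻¹)) = Nat.card (Cz C w) := by
    intro t ht
    have h1 : cj t C = C := by
      change cj t (cz R) = cz R
      rw [← cj_cz, cj_nz.2 (hTn t ht)]
    have h2 := cj_Cz t C w
    rw [h1] at h2
    rw [h2, card_cj]
  have hval : ∀ t ∈ T, θ (t * w * t⁻¹) / θ 1 = (Nat.card (Cz C w) : ℂ) * (Nat.card C : ℂ)⁻¹ * F t := by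
    intro t ht
    have h1 := cc_cls hθ (t * w * t⁻¹)
    have h2 : (Nat.card (Cz (cz R) (t * w * t⁻¹)) : ℂ) = (Nat.card (Cz C w) : ℂ) := by
      exact_mod_cast hm t ht
    rw [h2] at h1
    have h3 : (Nat.card (Cz C w) : ℂ) * F t = Nat.card C * (θ (t * w * t⁻¹) / θ 1) := h1
    calc θ (t * w * t⁻¹) / θ 1
        = (Nat.card C : ℂ)⁻¹ * ((Nat.card C : ℂ) * (θ (t * w * t⁻¹) / θ 1)) := by
          rw [← mul_assoc, inv_mul_cancel₀ hC0, one_mul]
      _ = (Nat.card C : ℂ)⁻¹ * ((Nat.card (Cz C w) : ℂ) * F t) := by rw [h3]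
      _ = (Nat.card (Cz C w) : ℂ) * (Nat.card C : ℂ)⁻¹ * F t := by ring
  have hIn : ∀ t ∈ T, InM M (F t - F 1) := by
    intro t ht
    have h1 : t⁻¹ ∈ TT M R θ := (TT M R θ).inv_mem (hT ht)
    have h2 := h1.2 (cls C w) (cls_CF hw) (fun x => cls_int C w x)
    rw [cc_funMap] at h2
    have h3 : cls C (t * w * t⁻¹) = fun x => cls C w (t⁻¹ * x * t⁻¹⁻¹) := FWD_cls (hTn t ht) w
    have h4 : F t = cc θ (fun x => cls C w (t⁻¹ * x * t⁻¹⁻¹)) := by
      change cc θ (cls C (t * w * t⁻¹)) = _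
      rw [h3]
    rw [h4, hF1]
    exact InM.of_mcong hS h2
  let Φ : G → ℂ := fun t => if t ∈ T then F t - F 1 else 0
  have hΦ : ∀ t, InM M (Φ t) := by
    intro t
    by_cases h : t ∈ T
    · change InM M (if t ∈ T then F t - F 1 else 0)
      rw [if_pos h]
      exact hIn t h
    · change InM M (if t ∈ T then F t - F 1 else 0)
      rw [if_neg h]
      exact InM.zero hS
  have hΦinv : ∀ (c : C) (t : G), Φ (MulAction.toPermHom C G c t) = Φ t := by
    intro c t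
    change (if (c : G) * t ∈ T then F ((c : G) * t) - F 1 else 0) = if t ∈ T then F t - F 1 else 0
    have h1 : (c : G) * t ∈ T ↔ t ∈ T := T.mul_mem_cancel_left (hCT c.2)
    by_cases h : t ∈ T
    · rw [if_pos h, if_pos (h1.2 h)]
      have h2 : F ((c : G) * t) = F t := by
        change cc θ (cls C ((c : G) * t * w * ((c : G) * t)⁻¹)) = cc θ (cls C (t * w * t⁻¹))
        rw [cls_congr (L := C) (y := t * w * t⁻¹) (y' := (c : G) * t * w * ((c : G) * t)⁻¹)
          ⟨(c : G), c.2, by group⟩]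
      rw [h2]
    · rw [if_neg h, if_neg fun h2 => h (h1.1 h2)]
  have hst : ∀ t : G, Φ t ≠ 0 →
      Nat.card C * Nat.card {c : C // MulAction.toPermHom C G c t = t} ∣ Nat.card C := by
    intro t _
    have h1 : Nat.card {c : C // MulAction.toPermHom C G c t = t} = 1 := by
      rw [Nat.card_eq_one_iff_unique]
      refine ⟨⟨?_⟩, ⟨⟨1, ?_⟩⟩⟩
      · rintro ⟨c, hc⟩ ⟨c', hc'⟩
        have h2 : (c : G) * t = t := hc
        have h3 : (c' : G) * t = t := hc'
        apply Subtype.ext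
        apply Subtype.ext
        rw [mul_eq_right.1 h2, mul_eq_right.1 h3]
      · rw [map_one]
        rfl
    rw [h1, mul_one]
  have hfin := (hORD p M hS C G (MulAction.toPermHom C G) (Nat.card C) Nat.card_pos.ne' Φ
    (fun t => (hΦ t).intAt) hΦinv).2.2 hst hΦ
  have hrel : (Nat.card C : ℂ) * ((cz R).relIndex T : ℂ) = (Nat.card T : ℂ) := by
    have h1 := Subgroup.relIndex_mul_relIndex (⊥ : Subgroup G) (cz R) T bot_le hCT
    rw [Subgroup.relIndex_bot_left, Subgroup.relIndex_bot_left] at h1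
    exact_mod_cast h1
  have hk : ((Nat.card (Cz (cz R) w) / Nat.card R : ℕ) : ℂ) = (Nat.card (Cz C w) : ℂ) / (Nat.card R : ℂ) :=
    Nat.cast_div hdvd hR0
  have hsumΦ : ∑ᶠ t, Φ t = (∑ t : G, if t ∈ T then F t else 0) - (Nat.card T : ℂ) * F 1 := by
    have h1 : (∑ t : G, if t ∈ T then F 1 else 0) = (Nat.card T : ℂ) * F 1 := by
      rw [← Finset.sum_filter, Finset.sum_const, nsmul_eq_mul, ← Fintype.card_subtype,
        ← Nat.card_eq_fintype_card]
    rw [finsum_eq_sum_of_fintype, ← h1, ← Finset.sum_sub_distrib]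
    refine Finset.sum_congr rfl fun t _ => ?_
    change (if t ∈ T then F t - F 1 else 0) = _
    by_cases h : t ∈ T
    · rw [if_pos h, if_pos h, if_pos h]
    · rw [if_neg h, if_neg h, if_neg h, sub_zero]
  have hfirst : ∑ᶠ t ∈ (T : Set G), θ (t * w * t⁻¹) / θ 1 =
      (Nat.card (Cz C w) : ℂ) * (Nat.card C : ℂ)⁻¹ * ∑ t : G, if t ∈ T then F t else 0 := by
    rw [FWD_sum T (fun t => θ (t * w * t⁻¹) / θ 1), Finset.mul_sum]
    refine Finset.sum_congr rfl fun t _ => ?_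
    by_cases h : t ∈ T
    · rw [if_pos h, if_pos h, hval t h]
    · rw [if_neg h, if_neg h, mul_zero]
  have hk' : IntAt M (((Nat.card (Cz (cz R) w) / Nat.card R : ℕ) : ℂ)) := IntAt.natCast hS _
  have hgoal : (∑ᶠ t ∈ (T : Set G), θ (t * w * t⁻¹) / θ 1) / Nat.card R -
      ((cz R).relIndex T : ℂ) * ((Nat.card (Cz (cz R) w) / Nat.card R : ℕ) : ℂ) * cc θ (cls (cz R) w) =
      ((Nat.card (Cz (cz R) w) / Nat.card R : ℕ) : ℂ) * ((∑ᶠ t, Φ t) / (Nat.card C : ℂ)) := by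
    have hrel' : ((cz R).relIndex T : ℂ) = (Nat.card T : ℂ) / (Nat.card C : ℂ) := by
      rw [← hrel, mul_div_cancel_left₀ _ hC0]
    have hF1' : cc θ (cls (cz R) w) = F 1 := hF1.symm
    rw [hfirst, hk, hsumΦ, hrel', hF1']
    field_simp
  rw [hgoal]
  exact InM.mul_left hS hk' hfin

end Pool.Agent.FI
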