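import Pool.Agent.helper1.FI.SpecQ2

/-!
# Project fi (MP_baa4d7_al), block Q2, row QA2
-/

set_option autoImplicit false

namespace Pool.Agent.FI

open Pool.Agent.helper58.DC Pool.Agent.DI Pool.Agent.GR Pool.Agent.OB

section

variable {G : Type} [Group G]

theorem QA2_rsk_mem {K : Subgroup G} {z : G → ℂ} {x : G} (h : x ∈ K) : rsk K z x = z x := by
  unfold rsk
  rw [if_pos h]

theorem QA2_rsk_not {K : Subgroup G} {z : G → ℂ} {x : G} (h : x ∉ K) : rsk K z x = 0 := by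
  unfold rsk
  rw [if_neg h]

theorem QA2_rsk_id {K : Subgroup G} {z : G → ℂ} (h : ∀ x, x ∉ K → z x = 0) : rsk K z = z := by
  funext x
  by_cases hx : x ∈ K
  · exact QA2_rsk_mem hx
  · rw [QA2_rsk_not hx, h x hx]

theorem QA2_rsk_int {p : ℕ} {M : Ideal (integralClosure ℤ ℂ)} (hS : Setup p M) {K : Subgroup G}
    {z : G → ℂ} (h : ∀ x, IntAt M (z x)) (x : G) : IntAt M (rsk K z x) := by
  by_cases hx : x ∈ K
  · rw [QA2_rsk_mem hx]
    exact h x
  · rw [QA2_rsk_not hx]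
    exact IntAt.zero hS

theorem QA2_refl {p : ℕ} {M : Ideal (integralClosure ℤ ℂ)} (hS : Setup p M) (z : G → ℂ) : EqmF M z z := by
  intro x
  rw [sub_self]
  exact InM.zero hS

theorem QA2_symm {M : Ideal (integralClosure ℤ ℂ)} {z w : G → ℂ} (h : EqmF M z w) : EqmF M w z := by
  intro x
  have h1 := (h x).neg
  rwa [neg_sub] at h1

theorem QA2_trans {p : ℕ} {M : Ideal (integralClosure ℤ ℂ)} (hS : Setup p M) {z w v : G → ℂ}
    (h : EqmF M z w) (h' : EqmF M w v) : EqmF M z v := by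
  intro x
  have h1 := InM.add hS (h x) (h' x)
  rwa [sub_add_sub_cancel] at h1

/-- congruence of products -/
theorem QA2_cv {p : ℕ} {M : Ideal (integralClosure ℤ ℂ)} (hS : Setup p M) [Finite G] (hCVF : CVF_stmt)
    {z z' w w' : G → ℂ} (hz : ∀ x, IntAt M (z x)) (hw' : ∀ x, IntAt M (w' x))
    (h : EqmF M z z') (h' : EqmF M w w') : EqmF M (cv z w) (cv z' w') := by
  intro x
  have h1 : InM M (cv z (w - w') x) := (hCVF G).2.2.2.2.2.2.2.2.2.2.2 p M hS z (w - w') hz (fun y => h' y) x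
  have h2 : InM M (cv (z - z') w' x) := by
    unfold cv
    exact InM.finsum hS fun y => InM.mul_right hS (h y) (hw' _)
  have h3 : cv z (w - w') = cv z w - cv z w' := ((hCVF G).2.1 z w w').2.2.2
  have h4 : cv (z - z') w' = cv z w' - cv z' w' := ((hCVF G).2.1 z z' w').2.2.1
  rw [h3] at h1
  rw [h4] at h2
  have h5 := InM.add hS h1 h2
  have h6 : (cv z w - cv z w') x + (cv z w' - cv z' w') x = cv z w x - cv z' w' x := by
    simp only [Pi.sub_apply]
    ring
  rwa [h6] at h5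

end

theorem QA2 (hQA1 : QA1_stmt) (hQA0 : QA0_stmt) (hBRQ : BRQ_stmt) (hCVF : CVF_stmt) (hIDM : IDM_stmt)
    (hEIN : EIN_stmt) : QA2_stmt := by
  classical
  intro p M hS G _ _ D x θ χ hR P hP
  have hcom := hR.com
  have hpD : IsPGroup p D := hR.dfa.pgrp
  have hDC : D ≤ cz D := le_cz_of_com hcom
  have hCL : cz D ≤ cz P := cz_mono hP
  -- all elements of `D`
  let l : List G := (Set.toFinite (D : Set G)).toFinset.toList
  have hl : ∀ u, u ∈ l ↔ u ∈ D := by
    intro u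
    change u ∈ (Set.toFinite (D : Set G)).toFinset.toList ↔ u ∈ D
    rw [Finset.mem_toList, Set.Finite.mem_toFinset]
    rfl
  obtain ⟨b, hbs, hbi, hbv, hbe, hbu⟩ := hQA1 p M hS G D x θ χ hR P hP l fun u hu => (hl u).1 hu
  -- the calculus of products
  have hA : ∀ a b c : G → ℂ, cv (cv a b) c = cv a (cv b c) := (hCVF G).1
  have hInvC : ∀ (T : Subgroup G) (a b : G → ℂ), Inv T a → Inv T b → Inv T (cv a b) :=
    fun T a b ha hb s hs y => (hCVF G).2.2.2.2.1 s a b (ha s hs) (hb s hs) y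
  have hSup : ∀ (H : Subgroup G) (a b : G → ℂ), (∀ y, y ∉ H → a y = 0) → (∀ y, y ∉ H → b y = 0) →
      ∀ y, y ∉ H → cv a b y = 0 := (hCVF G).2.2.2.2.2.1
  have hComm : ∀ (H : Subgroup G) (a b : G → ℂ), CF H a → (∀ y, y ∉ H → b y = 0) → cv a b = cv b a :=
    (hCVF G).2.2.2.2.2.2.1
  have hInt : ∀ a b : G → ℂ, (∀ y, IntAt M (a y)) → (∀ y, IntAt M (b y)) → ∀ y, IntAt M (cv a b y) :=
    (hCVF G).2.2.2.2.2.2.2.2.2.2.1 p M hS
  -- the block idempotents
  have hBC : ∀ K : Subgroup G, BC M K (Bl M K θ) := fun K => BCR (le_refl K) θ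
  have hCFb : ∀ K : Subgroup G, CF K (eBl M K θ) := fun K => (hIDM G K (Bl M K θ) (hBC K).sub).1
  have hIdb : ∀ K : Subgroup G, cv (eBl M K θ) (eBl M K θ) = eBl M K θ :=
    fun K => (hIDM G K (Bl M K θ) (hBC K).sub).2.2.1
  have hIntb : ∀ (K : Subgroup G) (y : G), IntAt M (eBl M K θ y) :=
    fun K y => hEIN p M hS G K (Bl M K θ) (hBC K) y
  have hInvb : ∀ K : Subgroup G, cz D ≤ K → Inv (cz D) (eBl M K θ) :=
    fun K hK s hs y => (hCFb K).1 s (hK hs) y
  set e : G → ℂ := eBl M (cz D) θ with he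
  set f : G → ℂ := eBl M (cz P) θ with hf
  have heC : CF (cz D) e := hCFb _
  have hfL : CF (cz P) f := hCFb _
  have hee : cv e e = e := hIdb _
  have hff : cv f f = f := hIdb _
  have hei : ∀ y, IntAt M (e y) := hIntb _
  have hfi : ∀ y, IntAt M (f y) := hIntb _
  have hev : Inv (cz D) e := hInvb _ le_rfl
  have hfv : Inv (cz D) f := hInvb _ hCL
  have heLs : ∀ y, y ∉ cz P → e y = 0 := fun y hy => heC.2 y fun h => hy (hCL h)
  -- the parts
  let z₁ : G → ℂ := cv b e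
  let z₂ : G → ℂ := cv e z₁
  let a : G → ℂ := cv f z₂
  have hz₁s : ∀ y, y ∉ cz P → z₁ y = 0 := hSup _ _ _ hbs heLs
  have hz₂s : ∀ y, y ∉ cz P → z₂ y = 0 := hSup _ _ _ heLs hz₁s
  have has : ∀ y, y ∉ cz P → a y = 0 := hSup _ _ _ hfL.2 hz₂s
  have hz₁i : ∀ y, IntAt M (z₁ y) := hInt _ _ hbi hei
  have hz₂i : ∀ y, IntAt M (z₂ y) := hInt _ _ hei hz₁i
  have hai : ∀ y, IntAt M (a y) := hInt _ _ hfi hz₂i
  have hz₁v : Inv (cz D) z₁ := hInvC _ _ _ hbv hev
  have hz₂v : Inv (cz D) z₂ := hInvC _ _ _ hev hz₁v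
  have hav : Inv (cz D) a := hInvC _ _ _ hfv hz₂v
  -- the restriction of `a` modulo `M`
  have hres : ∀ (Q : Subgroup G), IsPGroup p Q → Q ≤ cz D → cz D ≤ cz P ⊓ cz Q →
      EqmF M (rsk (cz P ⊓ cz Q) a)
        (cv (rsk (cz P ⊓ cz Q) f) (cv e (cv (rsk (cz P ⊓ cz Q) b) e))) := by
    intro Q hQ hQC hCK
    set K : Subgroup G := cz P ⊓ cz Q with hK
    have hinvQ : ∀ z : G → ℂ, Inv (cz D) z → Inv Q z := fun z hz s hs y => hz s (hQC hs) y
    have hre : rsk K e = e := QA2_rsk_id fun y hy => heC.2 y fun h => hy (hCK h)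
    have h1 : EqmF M (rsk K z₁) (cv (rsk K b) e) := by
      have h := hBRQ p M hS G (cz P) Q hQ b e hbs heLs hbi hei (hinvQ _ hbv) (hinvQ _ hev)
      rw [← hK, hre] at h
      exact h
    have h2 : EqmF M (rsk K z₂) (cv e (rsk K z₁)) := by
      have h := hBRQ p M hS G (cz P) Q hQ e z₁ heLs hz₁s hei hz₁i (hinvQ _ hev) (hinvQ _ hz₁v)
      rw [← hK, hre] at h
      exact h
    have h3 : EqmF M (rsk K a) (cv (rsk K f) (rsk K z₂)) := by
      have h := hBRQ p M hS G (cz P) Q hQ f z₂ hfL.2 hz₂s hfi hz₂i (hinvQ _ hfv) (hinvQ _ hz₂v)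
      rw [← hK] at h
      exact h
    have hbKi : ∀ y, IntAt M (rsk K b y) := QA2_rsk_int hS hbi
    have h4 : EqmF M (rsk K z₂) (cv e (cv (rsk K b) e)) :=
      QA2_trans hS h2 (QA2_cv hS hCVF hei (hInt _ _ hbKi hei) (QA2_refl hS e) h1)
    exact QA2_trans hS h3 (QA2_cv hS hCVF (QA2_rsk_int hS hfi) (hInt _ _ hei (hInt _ _ hbKi hei))
      (QA2_refl hS _) h4)
  refine ⟨a, has, hai, hav, ?_, ?_, ?_, ?_, ?_⟩
  · -- left
    have h1 : cv e z₂ = z₂ := by
      change cv e (cv e z₁) = cv e z₁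
      rw [← hA, hee]
    have h2 : cv e f = cv f e := (hComm (cz P) f e hfL heLs).symm
    change cv e (cv f z₂) = cv f z₂
    rw [← hA, h2, hA, h1]
  · -- right
    change cv (cv f (cv e (cv b e))) e = cv f (cv e (cv b e))
    rw [hA, hA, hA, hee]
  · -- blk
    have h1 : cv f a = a := by
      change cv f (cv f z₂) = cv f z₂
      rw [← hA, hff]
    change cv a f = a
    rw [← hComm (cz P) f a hfL has, h1]
  · -- cen
    have hK : cz P ⊓ cz D = cz D := inf_eq_right.2 hCL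
    have h1 := hres D hpD hDC (by rw [hK])
    rw [hK] at h1
    have h2 : EqmF M (cv e (rsk (cz D) f)) e := hQA0 p M hS G D (cz P) hpD hcom hCL θ hR.th
    have h3 : cv (rsk (cz D) f) e = cv e (rsk (cz D) f) :=
      (hComm (cz D) e (rsk (cz D) f) heC fun y hy => QA2_rsk_not hy).symm
    have h4 : EqmF M (cv (rsk (cz D) f) e) e := by
      rw [h3]
      exact h2
    have hbKi : ∀ y, IntAt M (rsk (cz D) b y) := QA2_rsk_int hS hbi
    have hfKi : ∀ y, IntAt M (rsk (cz D) f y) := QA2_rsk_int hS hfi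
    have h5 : EqmF M (cv (cv (rsk (cz D) f) e) (cv (rsk (cz D) b) e)) (cv e (cv (rsk (cz D) b) e)) :=
      QA2_cv hS hCVF (hInt _ _ hfKi hei) (hInt _ _ hbKi hei) h4 (QA2_refl hS _)
    rw [hA] at h5
    have h6 : EqmF M (cv (cv e (rsk (cz D) b)) e) (cv e e) :=
      QA2_cv hS hCVF (hInt _ _ hei hbKi) hei hbe (QA2_refl hS e)
    rw [hA, hee] at h6
    exact QA2_trans hS h1 (QA2_trans hS h5 h6)
  · -- loc
    intro u hu
    have hQC : Subgroup.zpowers u ≤ cz D := by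
      rw [Subgroup.zpowers_le]
      exact hDC hu
    have hQD : Subgroup.zpowers u ≤ D := by
      rw [Subgroup.zpowers_le]
      exact hu
    have hQ : IsPGroup p (Subgroup.zpowers u) := hpD.to_le hQD
    have hK : cz P ⊓ cz (Subgroup.zpowers u) = Cz (cz P) u := by
      ext y
      rw [mem_Cz, Subgroup.mem_inf, Subgroup.mem_centralizer_iff]
      refine and_congr_right fun _ => ?_
      constructor
      · intro h
        exact h u (Subgroup.mem_zpowers u)
      · intro h z hz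
        obtain ⟨k, rfl⟩ := Subgroup.mem_zpowers_iff.1 hz
        have h1 : Commute u y := h
        exact (h1.zpow_left k)
    have hCK : cz D ≤ Cz (cz P) u := by
      intro y hy
      refine mem_Cz.2 ⟨hCL hy, ?_⟩
      exact (Subgroup.mem_centralizer_iff.1 hy) u hu
    have h1 := hres (Subgroup.zpowers u) hQ hQC (by rw [hK]; exact hCK)
    rw [hK] at h1
    have hbu' := hbu u ((hl u).2 hu)
    set K : Subgroup G := Cz (cz P) u with hKd
    set h : G → ℂ := eBl M K θ with hh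
    have hhK : CF K h := hCFb K
    have hhi : ∀ y, IntAt M (h y) := hIntb K
    have hbKi : ∀ y, IntAt M (rsk K b y) := QA2_rsk_int hS hbi
    have hfKi : ∀ y, IntAt M (rsk K f y) := QA2_rsk_int hS hfi
    have haKi : ∀ y, IntAt M (rsk K a y) := QA2_rsk_int hS hai
    have heKs : ∀ y, y ∉ K → e y = 0 := fun y hy => heC.2 y fun h => hy (hCK h)
    have h2 : cv e h = cv h e := (hComm K h e hhK heKs).symm
    let r : G → ℂ := cv (rsk K f) (cv e (cv (rsk K b) e))
    have hri : ∀ y, IntAt M (r y) := hInt _ _ hfKi (hInt _ _ hei (hInt _ _ hbKi hei))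
    have h3 : cv r h = cv (rsk K f) (cv e (cv (cv (rsk K b) h) e)) := by
      change cv (cv (rsk K f) (cv e (cv (rsk K b) e))) h = _
      rw [hA, hA, hA, h2, ← hA (rsk K b) h e]
    have h4 : EqmF M (cv (cv (rsk K b) h) e) (cv (rsk K b) e) :=
      QA2_cv hS hCVF (hInt _ _ hbKi hhi) hei hbu' (QA2_refl hS e)
    have h5 : EqmF M (cv e (cv (cv (rsk K b) h) e)) (cv e (cv (rsk K b) e)) :=
      QA2_cv hS hCVF hei (hInt _ _ hbKi hei) (QA2_refl hS e) h4
    have h6 : EqmF M (cv r h) r := by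
      rw [h3]
      exact QA2_cv hS hCVF hfKi (hInt _ _ hei (hInt _ _ hbKi hei)) (QA2_refl hS _) h5
    have h7 : EqmF M (cv (rsk K a) h) (cv r h) := QA2_cv hS hCVF haKi hhi h1 (QA2_refl hS h)
    exact QA2_trans hS h7 (QA2_trans hS h6 (QA2_symm h1))

end Pool.Agent.FI
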